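import Pool.Agent.N65.TD.Reg
set_option autoImplicit false

/-!
Beilinson's conjecture for `K_j^(j)`, `j = dim X + 1`: the pencils `W(z) = λ` of all tempered Laurent
polynomials `W` in any number of variables, over number fields: unramified classes in Milnor K-theory
for all algebraic integers `λ`, with regulators asymptotic to a nonzero multiple of `log |λ|`.
-/

namespace Pool.Agent.Results.MP_4a177b_nt.TemperedHypersurfaces

open Pool.Agent.N65.TL

open Pool.Agent.N65.TD

/-- Let `K` be a number field and let `W = ∑_m w_m z^m` be a Laurent polynomial in `z_0, ..., z_s`,
`s ≥ 0`, over `K`, which is `Tempered`: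

* the coefficients are algebraic integers,
* the origin is an interior point of the Newton polytope (`Interior`: for every `a ∈ ℤ^{s+1}`,
  `a ≠ 0`, there is a monomial `z^m` of `W` with `a · m > 0`), and
* for every `a ≠ 0` the face polynomial `face W a` (the sum of the terms `w_m z^m` with the largest
  value of `a · m`) satisfies `face W a * Q = ∏_j G_j` for a Laurent polynomial `Q ≠ 0` with integral
  coefficients and polynomials `G_j = ∑_i ε_{j,i} z^{m_{j,i}}` of simplex type (`Tame`): the
  `ε_{j,i}` are roots of unity, and for every `j` the exponents `m_{j,i}` are affinely independent.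
  (For `s = 1` this means that the roots of the polynomials of the edges are roots of unity, as in
  the definition of the tempered polynomials of Rodriguez-Villegas; there is no condition on the
  coefficients in the interior of the Newton polytope besides integrality.)

For all algebraic integers `λ` of `K` the symbol `{z_0, ..., z_s}` in `K_{s+1}^M ⊗ ℚ` of the
coordinate ring of the `s`-dimensional hypersurface `W(z) = λ` in the torus has an unramified image
in the Milnor K-theory of all fields `L` with a homomorphism from the coordinate ring to `L` (for
example the function fields of the components of the hypersurface).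

For every embedding `σ` of `K` there is a real number `q ≠ 0` such that for all `ε > 0` and all
`λ ∈ K` with `|σ λ| ≥ C(ε)` there is a torus `Γ` of dimension `s` in the complex points (over `σ`)
of the hypersurface `W(z) = λ`, such that the quotient of the regulator of `{z_0, ..., z_s}` on `Γ`
and of `log |σ λ|` differs from `q` by at most `ε`; in particular the regulator does not vanish for
large `|σ λ|`. -/
theorem result.{u, v} (s : ℕ) (K : Type u) [Field K] [NumberField K] (W : LP K (s + 1))
    (hW : Tempered W) :
    (∀ lam : K, IsIntegral ℤ lam → Unram.{u, v} (level W lam)) ∧
    ∀ σ : K →+* ℂ, ∃ q : ℝ, q ≠ 0 ∧ ∀ ε : ℝ, 0 < ε → ∃ C : ℝ, ∀ lam : K, C ≤ ‖σ lam‖ →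
      HasReg (level W lam) σ (Real.log ‖σ lam‖) q ε :=
  ⟨fun _ hlam _ _ f => unram hW hlam f, fun σ => exists_reg hW.interior σ⟩

end Pool.Agent.Results.MP_4a177b_nt.TemperedHypersurfaces
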